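import Pool.Agent.H76.BP.MainB
import Pool.Agent.H76.BP.MainZ

/-!
# `SO(m) × O(k)`-invariant homogeneous `p`-harmonic maps, `p > 2`

Let `p > 2`, `m, k ≥ 1`, `d = m + k`, and let `h : ℝ^d → ℝⁿ` be a `p`-harmonic map of class `C¹`
which is positively homogeneous of degree `β` and invariant under `SO(m) × O(k)` acting on
`x = (x', x'') ∈ ℝ^m × ℝ^k`: for `m ≥ 2` it depends only on `|x'|` and `|x''|`, for `m = 1` only on
`x₁` and `|x''|` (nothing is assumed under `x₁ ↦ -x₁`). Then `V(∇h)` is of class `C¹`, its mean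
oscillation decays linearly on all balls, and either `∇h` is constant or `β > 1 + 2/p`.

The profile `f(θ)` of `h` solves `(s W f')' = -κ s W f`, `s = cos^(m-1) sin^(k-1)`,
`W = (β²|f|² + |f'|²)^((p-2)/2)`; it does not vanish together with its derivative and runs on a
line. With `X = tan² θ` the function `Z = -β f tan θ / f'` solves a first order equation
`2 X Z' = R(X, Z)`, regular at both poles `X = 0`, `X = ∞`. If `1 < β ≤ 1 + 2/p`, an explicit
rational function is a strict subsolution seen from both poles; since the equation changes its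
orientation under `X ↦ 1/X`, `Z ↦ -Z/X`, the solution would have to coincide with it. For `m = 1`
and a profile on `[0, π]` without parity the subsolution gives `f f' > 0` at the equator whatever
the sign of `f(0)`, and the same for the reflected profile gives `f f' < 0`.
-/

set_option autoImplicit false
open MeasureTheory Metric
open scoped ContDiff RealInnerProductSpace

namespace Pool.Agent.Results.MP_815c6c_an.InvariantMaps

open Pool.Agent.H76.PL Pool.Agent.H76.BP

/-- **Homogeneous `SO(m) × O(k)`-invariant `p`-harmonic maps, `p > 2`, satisfy Q1.** -/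
theorem result (m k n : ℕ) (hm : 1 ≤ m) (hk : 1 ≤ k) (p β : ℝ) (hp2 : 2 < p)
    (h : E (m + k) → E n) (hp : IsPHarmonic p h)
    (hh : ∀ t : ℝ, 0 < t → ∀ x : E (m + k), h (t • x) = t ^ β • h x)
    (hi : ∀ x y : E (m + k), ‖fs x‖ = ‖fs y‖ → (m = 1 → fs x = fs y) → ‖sn x‖ = ‖sn y‖ →
      h x = h y) :
    (ContDiff ℝ 1 fun x => V p (grad h x)) ∧
    (∃ c : ℝ, ∀ (x : E (m + k)) (r θ : ℝ), 0 < r → 0 < θ → θ ≤ 1 →
      osc (fun x => V p (grad h x)) x (θ * r) ≤ c * θ * osc (fun x => V p (grad h x)) x r) ∧
    ((∀ x, grad h x = grad h 0) ∨ 1 + 2 / p < β) := by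
  by_cases h1 : m = 1
  · subst h1
    exact mainZ hk hp2 hp hh fun x y hf hs => hi x y (by rw [hf]) (fun _ => hf) hs
  · exact mainB hm hk hp2 hp hh fun x y hf hs => hi x y hf (fun h => absurd h h1) hs

end Pool.Agent.Results.MP_815c6c_an.InvariantMaps
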