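import Pool.Agent.H76.PL.Main

/-!
# Homogeneous `p`-harmonic maps of the plane

Let `1 < p < ∞`, `n ≥ 0` and let `h : ℝ² → ℝⁿ` be a `p`-harmonic map of class `C¹` which is
positively homogeneous of some degree `β`. We show that `V(∇h)` is of class `C¹`, that its mean
oscillation decays linearly on all balls, and that either `∇h` is constant or `β > 1 + 2/p`
(i.e. `V(∇h)` is homogeneous of degree `> 1`) or `p = β = 2`.

The profile `u(t) = h(cos t, sin t)` solves `(W u')' + κ W u = 0`,
`W = (β²|u|² + |u'|²)^((p-2)/2)`, hence is planar, and the curve `ζ = β u - i u'` does not vanish.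
The angular speed `J` of `ζ` satisfies `J > 1`, and, if `γ = (β-1)p/2 ≤ 1`,
`J + k (β ⟨u,u'⟩ / |ζ|²)' ≤ 2` for an explicit constant `k = k(γ, p)`, strictly somewhere unless
`γ = 1, p = 2`. So the winding number of `ζ` would lie strictly between `1` and `2`.
-/

set_option autoImplicit false
open MeasureTheory Metric
open scoped ContDiff RealInnerProductSpace

namespace Pool.Agent.Results.MP_815c6c_an.PlanarHomogeneous

open Pool.Agent.H76.PL

/-- **Homogeneous `p`-harmonic maps `ℝ² → ℝⁿ` satisfy Q1.** -/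
theorem result (n : ℕ) (p β : ℝ) (hp1 : 1 < p) (h : E 2 → E n) (hp : IsPHarmonic p h)
    (hh : ∀ t : ℝ, 0 < t → ∀ x : E 2, h (t • x) = t ^ β • h x) :
    (ContDiff ℝ 1 fun x => V p (grad h x)) ∧
    (∃ c : ℝ, ∀ (x : E 2) (r θ : ℝ), 0 < r → 0 < θ → θ ≤ 1 →
      osc (fun x => V p (grad h x)) x (θ * r) ≤ c * θ * osc (fun x => V p (grad h x)) x r) ∧
    ((∀ x, grad h x = grad h 0) ∨ 1 + 2 / p < β ∨ (p = 2 ∧ β = 2)) :=
  main hp1 hp hh

end Pool.Agent.Results.MP_815c6c_an.PlanarHomogeneous
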