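import Pool.Agent.H74.UC.Final

/-!
# Planar scalar `p`-harmonic functions: `V(∇u) ∈ C¹`, and linear decay of its mean oscillation

Definitions (`Pool/Agent/H74/PH/Defs.lean`, `ℝ² = ℂ`): `grad u`, `A p`, `V p`, `IsPHarmonicOn`, `osc`.

Proof.  Let `K = p - 1`, `g = ∇u = |g| e^{iφ}`.

(a) *Comparison with the saddle.*  Let `q` be the positive root of `2 q² + (K-1) q = 2 K`, `a = 2 q - 1`,
`X(v) = (q+1) v̄ + (q-1) v³/|v|²`, a homeomorphism of the plane.  `U(X v) = a |v|^{1/a-1} Re v²` is a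
`p`-harmonic function, homogeneous of degree `1 + 1/a`.  Its images under similarities match every
`2`-jet with `g ≠ 0`, `D g ≠ 0`.  If the `3`-jets of `u` and of the matching copy of `U` differ at a point,
then the difference has six alternating sectors there, while on large circles it has two positive
arcs, if `|g|^{a-1} |D g|` is large at the point; this contradicts the comparison principle (a plane
topological argument).  So the `3`-jets agree where `|g|^{a-1} |D g|` is large, then `g` is homogeneous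
along rays there, and this gives `|g|^{a-1} |D g| ≤ C M^a / R` if `|g| ≤ M` on a disc of radius `R`.

(b) *Maximum principle.*  Far from the critical points (`|V(∇u) - c₀| ≤ 1`, `|c₀|` large) the hodograph
transform and the maximum principle for `e^A (1 - |x|²)² / M`, `M` a quadratic form in `(Z_t, Z_φ)`,
`Z(t, φ)` the position, `t = √K log |g|`, give the bound for `D V(∇u)`.
-/

set_option autoImplicit false

open Complex MeasureTheory Set Filter Topology Metric
open scoped ContDiff

namespace Pool.Agent.Results.MP_815c6c_an.PlanarScalar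

open Pool.Agent.H74.PH Pool.Agent.H74.UC

/-- **Q1 for planar scalar `p`-harmonic functions.**  For every `p > 1` there is a constant `c` such that
for every open `Ω ⊆ ℝ²` and every `C¹` `p`-harmonic function `u` on `Ω`, `C⁴` off its critical set:

1. `V(∇u) ∈ C¹(Ω)`;
2. `(⨍_{θB} |V(∇u) - ⟨V(∇u)⟩|²)^{1/2} ≤ c θ (⨍_B |V(∇u) - ⟨V(∇u)⟩|²)^{1/2}` for all balls `B ⊆ Ω` with
  `V(∇u) ∈ L²(B)` and all `0 < θ ≤ 1`;
3. if `|V(∇u) - c₀| ≤ s` on a closed ball of radius `r` in `Ω`, for some constant `c₀ ∈ ℝ²`, then `V(∇u)`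
  is Lipschitz with the constant `c s / r` on the concentric ball of radius `r / 2`. -/
theorem result (p : ℝ) (hp : 1 < p) : ∃ c : ℝ, ∀ (Ω : Set ℂ) (u : ℂ → ℝ),
    IsOpen Ω → IsPHarmonicOn p Ω u → (∀ z ∈ Ω, grad u z ≠ 0 → ContDiffAt ℝ 4 u z) →
    ContDiffOn ℝ 1 (fun z => V p (grad u z)) Ω ∧
    (∀ (z : ℂ) (r θ : ℝ), 0 < r → 0 < θ → θ ≤ 1 → ball z r ⊆ Ω →
      IntegrableOn (fun x => ‖V p (grad u x)‖ ^ 2) (ball z r) →
      osc (fun x => V p (grad u x)) z (θ * r) ≤ c * θ * osc (fun x => V p (grad u x)) z r) ∧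
    ∀ (z c₀ : ℂ) (r s : ℝ), 0 < r → closedBall z r ⊆ Ω →
      (∀ x ∈ closedBall z r, ‖V p (grad u x) - c₀‖ ≤ s) →
      ∀ x ∈ ball z (r / 2), ∀ y ∈ ball z (r / 2),
        ‖V p (grad u x) - V p (grad u y)‖ ≤ c * s / r * ‖x - y‖ := by
  obtain ⟨K, rfl⟩ : ∃ K, p = K + 1 := ⟨p - 1, by ring⟩
  have hK : 0 < K := by linarith
  obtain ⟨C, hC, hlip⟩ := lip_est' hK
  obtain ⟨C', hC', hdec⟩ := decay hC
  refine ⟨max C C', ?_⟩
  intro Ω u hΩ hu hs
  have hg : PGrad K Ω (grad u) := by
    have := pgrad_of_weak hp hΩ hu hs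
    rwa [add_sub_cancel_right] at this
  have hV := V_grad_C1 hK hg hu
  refine ⟨hV, ?_, ?_⟩
  · intro z r θ hr hθ hθ1 hB hint
    have h1 := hdec z r (fun x => V (K + 1) (grad u x)) hr (hV.continuousOn.mono hB) hint
      (fun c0 x r' O hr' hO hsub hb => hlip Ω (grad u) u hg hu (fun _ _ => rfl) c0 x r' O hr' hO
        (hsub.trans hB) hb)
      θ hθ hθ1
    refine h1.trans ?_
    have : 0 ≤ osc (fun x => V (K + 1) (grad u x)) z r := Real.sqrt_nonneg _
    gcongr
    exact le_max_right _ _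
  · intro z c0 r s hr hB hb x hx y hy
    have hs0 : 0 ≤ s := (norm_nonneg _).trans (hb z (mem_closedBall_self hr.le))
    have h1 : ∀ e : ℝ, 0 < e → ‖V (K + 1) (grad u x) - V (K + 1) (grad u y)‖ ≤
        C * (s + e) / r * ‖x - y‖ := fun e he =>
      hlip Ω (grad u) u hg hu (fun _ _ => rfl) c0 z r (s + e) hr (by linarith) hB
        (fun v hv => (hb v hv).trans (by linarith)) x hx y hy
    have h2 : ‖V (K + 1) (grad u x) - V (K + 1) (grad u y)‖ ≤ C * s / r * ‖x - y‖ := by
      have ht : Tendsto (fun e : ℝ => C * (s + e) / r * ‖x - y‖) (𝓝[>] 0)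
          (𝓝 (C * (s + 0) / r * ‖x - y‖)) := by
        apply Tendsto.mono_left _ nhdsWithin_le_nhds
        apply Continuous.tendsto
        fun_prop
      rw [add_zero] at ht
      exact ge_of_tendsto ht (eventually_nhdsWithin_of_forall fun e he => h1 e he)
    refine h2.trans ?_
    gcongr
    exact le_max_left _ _

end Pool.Agent.Results.MP_815c6c_an.PlanarScalar
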