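import Pool.Agent.H76.SC3.Main3

/-!
# Scalar `p`-harmonic functions in `ℝ³` for which `V(∇u)` is not `C¹`

Let `7/4 ≤ p < 2`. There are `β`, `1 < β < 1 + 2/p`, and a `p`-harmonic function `u` of class `C¹`
on `ℝ³`, positively homogeneous of degree `β`, even in `x₁` and rotationally symmetric about the
`x₁`-axis, whose gradient vanishes only at the origin, such that with `γ = (β-1)p/2 < 1` the field
`V(∇u)` has no `C¹` representative near the origin, no Hölder representative with an exponent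
`α > γ`, and its mean oscillation over `B(0, θr)` is exactly `θ^γ` times the (positive) one over
`B(0, r)`. The same holds for the maps `u w`, `w` a unit vector of `ℝⁿ`.

The angle `φ(θ)` of the gradient `(β f, -f')` of the profile satisfies a singular first order
equation with `φ(0) = 0`; `φ = θ` for `β = 1`, and for `β = 1 + 2/p` the comparison function
`2 - X - 27 q X / (30 + 20 X)`, `X = tan² θ`, `q = 1 - 2/p`, gives `φ(π/2) > π`. So
`φ(π/2) = π`, i.e. `f'(π/2) = 0`, for some `β` in between; the reflected profile solves the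
equation on the whole sphere, and the weak form is checked in spherical coordinates.
-/

set_option autoImplicit false
open MeasureTheory Metric
open scoped ContDiff RealInnerProductSpace

namespace Pool.Agent.Results.MP_815c6c_an.ScalarInSpace

open Pool.Agent.H76.PL

/-- **Scalar counterexamples to Q1 in `ℝ³`, `7/4 ≤ p < 2`.** -/
theorem result (p : ℝ) (hp : 7 / 4 ≤ p) (hp2 : p < 2) :
    ∃ (β : ℝ) (u : E 3 → ℝ), 1 < β ∧ β < 1 + 2 / p ∧ ContDiff ℝ 1 u ∧
      (∀ t : ℝ, 0 < t → ∀ x, u (t • x) = t ^ β * u x) ∧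
      (∀ x y, |x 0| = |y 0| → x 1 ^ 2 + x 2 ^ 2 = y 1 ^ 2 + y 2 ^ 2 → u x = u y) ∧
      ∀ (n : ℕ) (w : E n), ‖w‖ = 1 →
        IsPHarmonic p (fun x => u x • w) ∧
        (∀ x, x ≠ 0 → grad (fun x => u x • w) x ≠ 0) ∧
        (∀ U : Set (E 3), IsOpen U → 0 ∈ U →
          (¬ ∃ W : E 3 → Mat n 3, ContDiffOn ℝ 1 W U ∧
            W =ᵐ[volume.restrict U] fun x => V p (grad (fun x => u x • w) x)) ∧
          (∀ α : ℝ, (β - 1) * p / 2 < α → ¬ ∃ (W : E 3 → Mat n 3) (C : ℝ),
            (∀ x ∈ U, ∀ y ∈ U, ‖W x - W y‖ ≤ C * ‖x - y‖ ^ α) ∧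
            W =ᵐ[volume.restrict U] fun x => V p (grad (fun x => u x • w) x))) ∧
        (∀ r : ℝ, 0 < r →
          0 < osc (fun x => V p (grad (fun x => u x • w) x)) 0 r ∧
          (∀ θ : ℝ, 0 < θ → osc (fun x => V p (grad (fun x => u x • w) x)) 0 (θ * r)
            = θ ^ ((β - 1) * p / 2) * osc (fun x => V p (grad (fun x => u x • w) x)) 0 r) ∧
          (∀ α : ℝ, (β - 1) * p / 2 < α → ¬ ∃ c : ℝ, ∀ θ : ℝ, 0 < θ → θ ≤ 1 →
            osc (fun x => V p (grad (fun x => u x • w) x)) 0 (θ * r)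
              ≤ c * θ ^ α * osc (fun x => V p (grad (fun x => u x • w) x)) 0 r)) :=
  Pool.Agent.H76.SC3.main3 hp hp2

end Pool.Agent.Results.MP_815c6c_an.ScalarInSpace
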